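import Pool.Agent.X203.GamPoly

/-!
There is a two-dimensional real normed space `X` (the unit ball is a polygon with 96 sides) and an
`ε ∈ [0, 2]` such that `γ⁺_X(ε) < ε²`.
-/

namespace Pool.Agent.Results.MP_a1f11a_an.GammaPlusBelow

open Pool.Agent.X203.Gam Filter Topology

/-- The norming functionals `J₁(x) = {p : ‖p‖ = 1, p x = ‖x‖}`. -/
def J₁ {X : Type} [NormedAddCommGroup X] [NormedSpace ℝ X] (x : X) : Set (X →L[ℝ] ℝ) :=
  {p | ‖p‖ = 1 ∧ p x = ‖x‖}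

/-- The set of the values `⟨p₁ - p₂, x₁ - x₂⟩` for `x₁, x₂ ∈ S_X`, `‖x₁ - x₂‖ = ε`,
`pᵢ ∈ J₁(xᵢ)`. -/
def values (X : Type) [NormedAddCommGroup X] [NormedSpace ℝ X] (ε : ℝ) : Set ℝ :=
  {r | ∃ (x₁ x₂ : X) (p₁ p₂ : X →L[ℝ] ℝ), ‖x₁‖ = 1 ∧ ‖x₂‖ = 1 ∧ ‖x₁ - x₂‖ = ε ∧
    p₁ ∈ J₁ x₁ ∧ p₂ ∈ J₁ x₂ ∧ r = (p₁ - p₂) (x₁ - x₂)}

/-- The modulus `γ⁺_X(ε)`. -/
noncomputable def gammaPlus (X : Type) [NormedAddCommGroup X] [NormedSpace ℝ X] (ε : ℝ) : ℝ :=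
  sSup (values X ε)

/-- The set of values is nonempty for `ε ∈ [0, 2]` if `dim X ≥ 2`. -/
theorem values_nonempty (X : Type) [NormedAddCommGroup X] [NormedSpace ℝ X]
    (hX : 1 < Module.rank ℝ X) {ε : ℝ} (h0 : 0 ≤ ε) (h2 : ε ≤ 2) : (values X ε).Nonempty := by
  have hnt : Nontrivial X := by
    by_contra h
    rw [not_nontrivial_iff_subsingleton] at h
    have h1 : Module.rank ℝ X = 0 := rank_subsingleton' ℝ X
    rw [h1] at hX
    exact absurd hX (by simp)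
  obtain ⟨x, hx⟩ := exists_ne (0 : X)
  have hx1 : ‖(‖x‖⁻¹) • x‖ = 1 := by
    rw [norm_smul, norm_inv, norm_norm, inv_mul_cancel₀ (norm_ne_zero_iff.2 hx)]
  generalize (‖x‖⁻¹) • x = u at hx1
  have hpre := isPreconnected_sphere hX (0 : X) 1
  have hc : ContinuousOn (fun z : X => ‖u - z‖) (Metric.sphere (0 : X) 1) := by fun_prop
  have hu : u ∈ Metric.sphere (0 : X) 1 := by simpa using hx1
  have hu' : -u ∈ Metric.sphere (0 : X) 1 := by simpa using hx1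
  have h3 := hpre.intermediate_value hu hu' hc
  have h4 : ε ∈ Set.Icc (‖u - u‖) (‖u - -u‖) := by
    have h5 : ‖u - -u‖ = 2 := by
      rw [sub_neg_eq_add, ← two_smul ℝ u, norm_smul, hx1]
      norm_num
    rw [h5, sub_self, norm_zero]
    exact ⟨h0, h2⟩
  obtain ⟨z, hz, hzε⟩ := h3 h4
  have hz1 : ‖z‖ = 1 := by simpa using hz
  obtain ⟨p₁, hp₁, hp₁'⟩ := exists_dual_vector ℝ u (by
    intro h; rw [h] at hx1; exact zero_ne_one hx1)
  obtain ⟨p₂, hp₂, hp₂'⟩ := exists_dual_vector ℝ z (by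
    intro h; rw [h] at hz1; exact zero_ne_one hz1)
  exact ⟨_, u, z, p₁, p₂, hx1, hz1, hzε, ⟨hp₁, by simpa using hp₁'⟩, ⟨hp₂, by simpa using hp₂'⟩,
    rfl⟩

/-- The map whose range is the space. -/
noncomputable def emb : (ℝ × ℝ) →ₗ[ℝ] (Fin 96 → ℝ) where
  toFun := fun v i => fr i v.1 v.2
  map_add' := fun v w => by
    funext i
    simp only [fr, Prod.fst_add, Prod.snd_add, Pi.add_apply]
    ring
  map_smul' := fun c v => by
    funext i
    simp only [fr, Prod.smul_fst, Prod.smul_snd, smul_eq_mul, Pi.smul_apply, RingHom.id_apply]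
    ring

/-- The space: a two-dimensional subspace of `ℓ_∞^{96}`. -/
abbrev Sp : Type := LinearMap.range emb

theorem emb_injective : Function.Injective emb := by
  rw [← LinearMap.ker_eq_bot, LinearMap.ker_eq_bot']
  rintro ⟨x, y⟩ h
  have h0 : fr 0 x y = 0 := congrFun h 0
  have h1 : fr 95 x y = 0 := congrFun h 95
  have hd : (0 : ℝ) < (dd 0 : ℝ) := by exact_mod_cast dd_pos 0
  unfold fr at h0 h1
  have h0' : (p 0 : ℝ) * x + q 0 * y = 0 := by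
    rw [div_eq_zero_iff] at h0
    rcases h0 with h | h
    · exact h
    · norm_num at h
  have h1' : (p 95 : ℝ) * x + q 95 * y = 0 := by
    rw [div_eq_zero_iff] at h1
    rcases h1 with h | h
    · exact h
    · norm_num at h
  have hdd : (dd 0 : ℝ) = p 95 * q 0 - p 0 * q 95 := by
    simp only [dd, Nat.zero_add]
    push_cast
    ring
  have hx : (dd 0 : ℝ) * x = 0 := by
    rw [hdd]
    linear_combination (q 0 : ℝ) * h1' - (q 95 : ℝ) * h0'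
  have hy : (dd 0 : ℝ) * y = 0 := by
    rw [hdd]
    linear_combination (p 95 : ℝ) * h0' - (p 0 : ℝ) * h1'
  ext
  · exact (mul_eq_zero.1 hx).resolve_left hd.ne'
  · exact (mul_eq_zero.1 hy).resolve_left hd.ne'

theorem finrank_Sp : Module.finrank ℝ Sp = 2 := by
  rw [LinearMap.finrank_range_of_inj emb_injective]
  simp

theorem fr_mod (k : ℕ) (x y : ℝ) : fr (k % 96) x y = fr k x y := by
  unfold fr
  rw [p_mod, q_mod]

theorem coord_le (v : Sp) (i : Fin 96) : (v : Fin 96 → ℝ) i ≤ ‖v‖ := by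
  have h : ‖(v : Fin 96 → ℝ) i‖ ≤ ‖(v : Fin 96 → ℝ)‖ := norm_le_pi_norm _ i
  exact (Real.le_norm_self _).trans h

theorem neg_coord (v : Sp) (i : Fin 96) : ∃ j : Fin 96, (v : Fin 96 → ℝ) j = -(v : Fin 96 → ℝ) i := by
  obtain ⟨_, ⟨⟨x, y⟩, rfl⟩⟩ := v
  refine ⟨⟨(i + 48) % 96, Nat.mod_lt _ (by norm_num)⟩, ?_⟩
  show fr ((i + 48) % 96) x y = -fr i x y
  rw [fr_mod]
  unfold fr
  obtain ⟨h1, h2⟩ := sym i.2
  rw [h1, h2]
  push_cast
  ring

/-- The norm is attained by one of the coordinates. -/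
theorem exists_coord (v : Sp) : ∃ i : Fin 96, (v : Fin 96 → ℝ) i = ‖v‖ := by
  have h1 : ∃ i : Fin 96, ‖(v : Fin 96 → ℝ) i‖ = ‖v‖ := by
    by_contra hcon
    push Not at hcon
    have h2 : ∀ i : Fin 96, ‖(v : Fin 96 → ℝ) i‖ < ‖v‖ := fun i =>
      lt_of_le_of_ne (norm_le_pi_norm _ i) (hcon i)
    have h3 : 0 < ‖v‖ := (norm_nonneg _).trans_lt (h2 0)
    have h4 : ‖(v : Fin 96 → ℝ)‖ < ‖v‖ := (pi_norm_lt_iff h3).2 h2
    exact absurd h4 (lt_irrefl _)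
  obtain ⟨i, hi⟩ := h1
  rcases abs_cases ((v : Fin 96 → ℝ) i) with ⟨h, -⟩ | ⟨h, -⟩
  · exact ⟨i, by rw [← hi, Real.norm_eq_abs, h]⟩
  · obtain ⟨j, hj⟩ := neg_coord v i
    exact ⟨j, by rw [hj, ← hi, Real.norm_eq_abs, h]⟩

/-- A norming functional is dominated from below by an active coordinate. -/
theorem exists_active {v : Sp} (hv : ‖v‖ = 1) {f : Sp →L[ℝ] ℝ} (hf : ‖f‖ = 1) (hfv : f v = 1)
    (z : Sp) : ∃ i : Fin 96, (v : Fin 96 → ℝ) i = 1 ∧ (z : Fin 96 → ℝ) i ≤ f z := by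
  by_contra hcon
  push Not at hcon
  have h1 : ∀ i : Fin 96, ∀ᶠ t : ℝ in 𝓝[>] 0,
      (v : Fin 96 → ℝ) i - t * (z : Fin 96 → ℝ) i < 1 - t * f z := by
    intro i
    by_cases hi : (v : Fin 96 → ℝ) i = 1
    · have h2 := hcon i hi
      filter_upwards [self_mem_nhdsWithin] with t ht
      have ht' : 0 < t := ht
      rw [hi]
      nlinarith
    · have h2 : (v : Fin 96 → ℝ) i < 1 := lt_of_le_of_ne (hv ▸ coord_le v i) hi
      have h3 : Tendsto (fun t : ℝ => (v : Fin 96 → ℝ) i - t * (z : Fin 96 → ℝ) i - (1 - t * f z))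
          (𝓝[>] 0) (𝓝 ((v : Fin 96 → ℝ) i - 0 * (z : Fin 96 → ℝ) i - (1 - 0 * f z))) := by
        apply Tendsto.mono_left _ nhdsWithin_le_nhds
        exact Continuous.tendsto (by fun_prop) 0
      have h4 := h3.eventually_lt_const (u := 0) (by linarith)
      filter_upwards [h4] with t ht
      linarith
  have h2 : ∀ᶠ t : ℝ in 𝓝[>] 0, ∀ i : Fin 96,
      (v : Fin 96 → ℝ) i - t * (z : Fin 96 → ℝ) i < 1 - t * f z := eventually_all.2 h1
  obtain ⟨t, ht⟩ := h2.exists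
  obtain ⟨i, hi⟩ := exists_coord (v - t • z)
  have h3 : f (v - t • z) ≤ ‖v - t • z‖ := by
    refine (Real.le_norm_self _).trans ((f.le_opNorm _).trans ?_)
    rw [hf, one_mul]
  rw [map_sub, map_smul, hfv, smul_eq_mul, ← hi] at h3
  have h4 := ht i
  have h5 : ((v - t • z : Sp) : Fin 96 → ℝ) i = (v : Fin 96 → ℝ) i - t * (z : Fin 96 → ℝ) i := rfl
  rw [h5] at h3
  linarith

theorem values_le {r : ℝ} (hr : r ∈ values Sp (1462 / 1000)) : r ≤ 21277 / 10000 := by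
  obtain ⟨x₁, x₂, p₁, p₂, hx₁, hx₂, hd, ⟨hp₁, hp₁'⟩, ⟨hp₂, hp₂'⟩, rfl⟩ := hr
  rw [hx₁] at hp₁'
  rw [hx₂] at hp₂'
  obtain ⟨i, hi, hi'⟩ := exists_active hx₁ hp₁ hp₁' x₂
  obtain ⟨j, hj, hj'⟩ := exists_active hx₂ hp₂ hp₂' x₁
  have h1 : (p₁ - p₂) (x₁ - x₂) = 2 - p₁ x₂ - p₂ x₁ := by
    rw [_root_.sub_apply, map_sub, map_sub, hp₁', hp₂']
    ring
  rw [h1]
  obtain ⟨a₁, ⟨⟨x, y⟩, rfl⟩⟩ := x₁
  obtain ⟨a₂, ⟨⟨x', y'⟩, rfl⟩⟩ := x₂
  have e1 : ∀ k, fr k x y ≤ 1 := fun k => by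
    rw [← fr_mod, ← hx₁]
    exact coord_le (⟨emb (x, y), ⟨(x, y), rfl⟩⟩ : Sp) ⟨k % 96, Nat.mod_lt _ (by norm_num)⟩
  have e2 : ∀ k, fr k x' y' ≤ 1 := fun k => by
    rw [← fr_mod, ← hx₂]
    exact coord_le (⟨emb (x', y'), ⟨(x', y'), rfl⟩⟩ : Sp) ⟨k % 96, Nat.mod_lt _ (by norm_num)⟩
  have e3 : ∀ k (x y x' y' : ℝ), fr k (x - x') (y - y') = fr k x y - fr k x' y' := by
    intro k x y x' y'
    unfold fr
    ring
  have e4 : ∀ k, fr k (x - x') (y - y') ≤ 1462 / 1000 := fun k => by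
    rw [← fr_mod, ← hd, e3]
    exact coord_le ((⟨emb (x, y), ⟨(x, y), rfl⟩⟩ : Sp) - (⟨emb (x', y'), ⟨(x', y'), rfl⟩⟩ : Sp))
      ⟨k % 96, Nat.mod_lt _ (by norm_num)⟩
  have e5 := main i.2 j.2 e1 e2 hi hj e4
  rw [e3, e3] at e5
  have e6 : fr i x y = 1 := hi
  have e7 : fr j x' y' = 1 := hj
  have e8 : fr i x' y' ≤ p₁ ⟨emb (x', y'), ⟨(x', y'), rfl⟩⟩ := hi'
  have e9 : fr j x y ≤ p₂ ⟨emb (x, y), ⟨(x, y), rfl⟩⟩ := hj'
  rw [e6, e7] at e5
  linarith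

/-- **Main theorem.** There are a two-dimensional real normed space `X` and an `ε ∈ [0, 2]` such
that `γ⁺_X(ε) < ε²` (and `γ⁺_X(ε)` is the supremum of a nonempty set). -/
theorem result : ∃ (X : Type) (_ : NormedAddCommGroup X) (_ : NormedSpace ℝ X),
    FiniteDimensional ℝ X ∧ Module.finrank ℝ X = 2 ∧
      ∃ ε ∈ Set.Icc (0 : ℝ) 2, (values X ε).Nonempty ∧ gammaPlus X ε < ε ^ 2 := by
  refine ⟨Sp, inferInstance, inferInstance, inferInstance, finrank_Sp, 1462 / 1000,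
    ⟨by norm_num, by norm_num⟩, ?_, ?_⟩
  · refine values_nonempty Sp ?_ (by norm_num) (by norm_num)
    rw [← Module.finrank_eq_rank, finrank_Sp]
    exact_mod_cast one_lt_two
  · have hne : (values Sp (1462 / 1000)).Nonempty := by
      refine values_nonempty Sp ?_ (by norm_num) (by norm_num)
      rw [← Module.finrank_eq_rank, finrank_Sp]
      exact_mod_cast one_lt_two
    have h1 : gammaPlus Sp (1462 / 1000) ≤ 21277 / 10000 := csSup_le hne fun r hr => values_le hr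
    refine h1.trans_lt (by norm_num)

end Pool.Agent.Results.MP_a1f11a_an.GammaPlusBelow
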